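import Pool.Agent.R841.DagSep

set_option autoImplicit false
set_option linter.unusedSectionVars false
set_option linter.unusedSimpArgs false
set_option linter.unusedVariables false

/-!
MP_3a69bf_ag, Q1: if a DAG has two vertices which are `d`-separated by some set, but by no set
with at most one element, then its Gaussian vanishing ideal is not toric.
-/

open MvPolynomial

namespace Pool.Agent.Results.MP_3a69bf_ag.LargeSeparatorNotToric

/-! ### Definitions -/

/-- `E` is the edge relation of a directed acyclic graph: there are no directed cycles. -/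
def IsDAG {n : ℕ} (E : Fin n → Fin n → Prop) : Prop := ∀ v, ¬ Relation.TransGen E v v

/-- `l` is a path from `i` to `j`: it lists distinct vertices, consecutive ones are joined by an
edge (in either direction), it starts at `i` and ends at `j`. -/
def IsPath {n : ℕ} (E : Fin n → Fin n → Prop) (i j : Fin n) (l : List (Fin n)) : Prop :=
  l.Nodup ∧ l.IsChain (fun a b => E a b ∨ E b a) ∧ l.head? = some i ∧ l.getLast? = some j

/-- The path `l` is blocked by `C`: some interior vertex `c`, with neighbours `a`, `b` on the path,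
is a non-collider in `C`, or is a collider such that neither `c` nor a descendant of `c` lies in
`C`. -/
def Blocked {n : ℕ} (E : Fin n → Fin n → Prop) (C : Finset (Fin n)) (l : List (Fin n)) : Prop :=
  ∃ a c b, [a, c, b] <:+: l ∧
    ((¬ (E a c ∧ E b c) ∧ c ∈ C) ∨
      ((E a c ∧ E b c) ∧ ∀ d ∈ C, ¬ Relation.ReflTransGen E c d))

/-- `C ⊆ [n] ∖ {i, j}` `d`-separates `i` and `j`. -/
def DSep {n : ℕ} (E : Fin n → Fin n → Prop) (C : Finset (Fin n)) (i j : Fin n) : Prop :=
  i ∉ C ∧ j ∉ C ∧ ∀ l, IsPath E i j l → Blocked E C l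

/-- The indices of the coordinates `σ_{ij}`, `i ≤ j`. -/
abbrev Ix (n : ℕ) : Type := {p : Fin n × Fin n // p.1 ≤ p.2}

/-- The covariance matrix `(I - Λ)⁻ᵀ Ω (I - Λ)⁻¹`, `Ω = diag w`. -/
noncomputable def cov {n : ℕ} (L : Matrix (Fin n) (Fin n) ℝ) (w : Fin n → ℝ) :
    Matrix (Fin n) (Fin n) ℝ :=
  ((1 - L)⁻¹).transpose * Matrix.diagonal w * (1 - L)⁻¹

/-- The Gaussian DAG model, as a set of vectors `(σ_{ij})_{i ≤ j}`. -/
def model {n : ℕ} (E : Fin n → Fin n → Prop) : Set (Ix n → ℝ) :=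
  {x | ∃ (L : Matrix (Fin n) (Fin n) ℝ) (w : Fin n → ℝ),
    (∀ i j, ¬ E i j → L i j = 0) ∧ (∀ i, 0 < w i) ∧ x = fun p => cov L w p.1.1 p.1.2}

/-- The vanishing ideal `I_G`. -/
noncomputable def vanIdeal {n : ℕ} (E : Fin n → Fin n → Prop) :
    Ideal (MvPolynomial (Ix n) ℝ) := vanishingIdeal ℝ (model E)

/-- `I` is a prime ideal generated by polynomials with at most two terms. -/
def IsPrimeBinomial {n : ℕ} (I : Ideal (MvPolynomial (Ix n) ℝ)) : Prop :=
  I.IsPrime ∧ ∃ B : Set (MvPolynomial (Ix n) ℝ), (∀ b ∈ B, b.support.card ≤ 2) ∧ Ideal.span B = I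

/-- `I` is the kernel of an algebra homomorphism to a polynomial ring which sends every
`σ_{ij}` to a monomial or to `0`. -/
def IsMonomialKernel {n : ℕ} (I : Ideal (MvPolynomial (Ix n) ℝ)) : Prop :=
  ∃ (τ : Type) (χ : MvPolynomial (Ix n) ℝ →ₐ[ℝ] MvPolynomial τ ℝ),
    (∀ p, χ (X p) = 0 ∨ ∃ e, χ (X p) = monomial e 1) ∧ RingHom.ker χ = I

/-! ### A compatible numbering -/

lemma exists_rk {n : ℕ} {E : Fin n → Fin n → Prop} (h : IsDAG E) :
    ∃ rk : Fin n → ℕ, Function.Injective rk ∧ ∀ i j, E i j → rk i < rk j := by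
  classical
  set f : Fin n → ℕ := fun v => (Finset.univ.filter (fun u => Relation.TransGen E u v)).card
    with hf
  have hfE : ∀ i j, E i j → f i < f j := by
    intro i j hij
    apply Finset.card_lt_card
    rw [Finset.ssubset_iff_of_subset]
    · refine ⟨i, ?_, ?_⟩
      · simpa using Relation.TransGen.single hij
      · simpa using h i
    · intro u hu
      simp only [Finset.mem_filter, Finset.mem_univ, true_and] at hu ⊢
      exact hu.tail hij
  refine ⟨fun v => f v * n + v.val, ?_, ?_⟩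
  · intro u v huv
    simp only at huv
    have h1 : (f u * n + u.val) % n = (f v * n + v.val) % n := by rw [huv]
    rw [Nat.mul_add_mod', Nat.mul_add_mod', Nat.mod_eq_of_lt u.isLt,
      Nat.mod_eq_of_lt v.isLt] at h1
    exact Fin.ext h1
  · intro i j hij
    have h1 := hfE i j hij
    have h2 : (f i + 1) * n ≤ f j * n := Nat.mul_le_mul_right n h1
    have h3 := i.isLt
    have h4 : (f i + 1) * n = f i * n + n := by ring
    show f i * n + i.val < f j * n + j.val
    omega

/-! ### The generic covariance matrix -/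

open Pool.Agent.R841.Dag

variable {n : ℕ} (E : Fin n → Fin n → Prop)

/-- the generic edge matrix -/
noncomputable def Lg : Matrix (Fin n) (Fin n) (MvPolynomial (Par E) ℝ) :=
  Matrix.of (fun i j => lam ℝ E i j)

/-- geometric sum of the generic edge matrix -/
noncomputable def Ng (M : ℕ) : Matrix (Fin n) (Fin n) (MvPolynomial (Par E) ℝ) :=
  ∑ k ∈ Finset.range M, Lg E ^ k

/-- generic covariance matrix -/
noncomputable def Sg (M : ℕ) : Matrix (Fin n) (Fin n) (MvPolynomial (Par E) ℝ) :=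
  (Ng E M).transpose * Matrix.diagonal (fun v => X (Sum.inl v)) * Ng E M

variable {E} {rk : Fin n → ℕ}

lemma Lg_pow (hE : ∀ i j, E i j → rk i < rk j) (k : ℕ) :
    ∀ i j, (Lg E ^ k) i j ≠ 0 → rk i + k ≤ rk j := by
  induction k with
  | zero =>
    intro i j h
    rw [pow_zero, Matrix.one_apply] at h
    have : i = j := by
      by_contra hne
      exact h (if_neg hne)
    rw [this]; omega
  | succ k ih =>
    intro i j h
    rw [pow_succ, Matrix.mul_apply] at h
    obtain ⟨l, _, hl⟩ := Finset.exists_ne_zero_of_sum_ne_zero h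
    have h1 := ih i l (left_ne_zero_of_mul hl)
    have h2 : lam ℝ E l j ≠ 0 := right_ne_zero_of_mul hl
    have h3 : E l j := by
      by_contra hn
      exact h2 (lam_of_not ℝ hn)
    have := hE l j h3
    omega

lemma Lg_pow_zero (hE : ∀ i j, E i j → rk i < rk j) {M : ℕ} (hM : ∀ v, rk v < M) :
    Lg E ^ M = 0 := by
  refine Matrix.ext (fun i j => ?_)
  by_contra h
  have := Lg_pow hE M i j h
  have := hM j
  omega

lemma Ng_mul (hE : ∀ i j, E i j → rk i < rk j) {M : ℕ} (hM : ∀ v, rk v < M) :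
    Ng E M * (1 - Lg E) = 1 := by
  rw [Ng, geom_sum_mul_neg, Lg_pow_zero hE hM, sub_zero]

lemma Ng_ne_zero (hE : ∀ i j, E i j → rk i < rk j) {M : ℕ} {i j : Fin n}
    (h : Ng E M i j ≠ 0) : rk i ≤ rk j := by
  rw [Ng, Matrix.sum_apply] at h
  obtain ⟨k, _, hk⟩ := Finset.exists_ne_zero_of_sum_ne_zero h
  have := Lg_pow hE k i j hk
  omega

lemma Ng_diag (hE : ∀ i j, E i j → rk i < rk j) {M : ℕ} (hM : 0 < M) (j : Fin n) :
    Ng E M j j = 1 := by
  rw [Ng, Matrix.sum_apply, Finset.sum_eq_single 0]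
  · rw [pow_zero, Matrix.one_apply_eq]
  · intro k _ hk
    by_contra h
    have := Lg_pow hE k j j h
    omega
  · intro h
    exact absurd (Finset.mem_range.2 hM) h

lemma Sg_symm (M : ℕ) (i j : Fin n) : Sg E M i j = Sg E M j i := by
  have : (Sg E M).transpose = Sg E M := by
    unfold Sg
    rw [Matrix.transpose_mul, Matrix.transpose_mul, Matrix.transpose_transpose,
      Matrix.diagonal_transpose, Matrix.mul_assoc]
  conv_lhs => rw [← this]
  rfl

lemma Sg_entry (hE : ∀ i j, E i j → rk i < rk j) {M : ℕ} (hM : ∀ v, rk v < M) (i j : Fin n) :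
    Sg E M j i = X (Sum.inl j) * Ng E M j i + ∑ k, lam ℝ E k j * Sg E M i k := by
  have h1 : (1 - Lg E).transpose * Sg E M =
      Matrix.diagonal (fun v => X (Sum.inl v)) * Ng E M := by
    unfold Sg
    rw [← Matrix.mul_assoc, ← Matrix.mul_assoc, ← Matrix.transpose_mul, Ng_mul hE hM,
      Matrix.transpose_one, Matrix.one_mul]
  have h2 := congrFun (congrFun h1 j) i
  rw [Matrix.diagonal_mul, Matrix.transpose_sub, Matrix.transpose_one, Matrix.sub_mul,
    Matrix.one_mul, Matrix.sub_apply, Matrix.mul_apply] at h2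
  rw [← h2]
  have h3 : ∑ k, (Lg E).transpose j k * Sg E M k i = ∑ k, lam ℝ E k j * Sg E M i k := by
    apply Finset.sum_congr rfl
    intro k _
    rw [Sg_symm M i k]
    rfl
  rw [h3]; ring

/-- the system of entries of the generic covariance matrix -/
noncomputable def sysG (hE : ∀ i j, E i j → rk i < rk j) {M : ℕ} (hM : ∀ v, rk v < M) :
    Sys ℝ E rk where
  s := Sg E M
  eps := 1
  symm := Sg_symm M
  recu := by
    intro i j hij
    rw [Sg_symm, Sg_entry hE hM i j]
    have : Ng E M j i = 0 := by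
      by_contra h
      have := Ng_ne_zero hE h
      omega
    rw [this, mul_zero, zero_add]
  diag := by
    intro v
    conv_lhs => rw [Sg_entry hE hM v v]
    rw [Ng_diag hE (lt_of_le_of_lt (Nat.zero_le _) (hM v)), mul_one, C_1, one_mul]

/-! ### Evaluation -/

lemma cov_eval (hE : ∀ i j, E i j → rk i < rk j) {M : ℕ} (hM : ∀ v, rk v < M)
    (θ : Par E → ℝ) (L : Matrix (Fin n) (Fin n) ℝ) (hL : ∀ i j, ¬ E i j → L i j = 0)
    (hL' : ∀ e : {p : Fin n × Fin n // E p.1 p.2}, L e.1.1 e.1.2 = θ (Sum.inr e)) (i j : Fin n) :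
    cov L (fun v => θ (Sum.inl v)) i j = eval θ (Sg E M i j) := by
  have hLmap : (Lg E).map (eval θ) = L := by
    ext i j
    rw [Matrix.map_apply]
    show eval θ (lam ℝ E i j) = L i j
    by_cases h : E i j
    · rw [lam_of_E ℝ h, eval_X, ← hL' ⟨(i, j), h⟩]
    · rw [lam_of_not ℝ h, map_zero, hL i j h]
  have hN : (Ng E M).map (eval θ) * (1 - L) = 1 := by
    have h := congrArg (fun A => A.map (eval θ)) (Ng_mul hE hM)
    beta_reduce at h
    rw [Matrix.map_mul, Matrix.map_sub (eval θ) (by intro a b; exact map_sub _ _ _),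
      Matrix.map_one _ (map_zero _) (map_one _), hLmap] at h
    exact h
  have hinv : (1 - L)⁻¹ = (Ng E M).map (eval θ) := Matrix.inv_eq_left_inv hN
  have hd : (Matrix.diagonal (fun v => X (Sum.inl v)) :
      Matrix (Fin n) (Fin n) (MvPolynomial (Par E) ℝ)).map (eval θ) =
      Matrix.diagonal (fun v => θ (Sum.inl v)) := by
    rw [Matrix.diagonal_map (map_zero _)]
    congr 1
    funext v
    exact eval_X _
  have h2 : (Sg E M).map (eval θ) = cov L (fun v => θ (Sum.inl v)) := by
    unfold Sg cov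
    rw [hinv, Matrix.map_mul, Matrix.map_mul, hd, Matrix.transpose_map]
  rw [← h2, Matrix.map_apply]

/-- the parametrisation of the model -/
noncomputable def phi (E : Fin n → Fin n → Prop) (M : ℕ) :
    MvPolynomial (Ix n) ℝ →ₐ[ℝ] MvPolynomial (Par E) ℝ :=
  aeval (fun p => Sg E M p.1.1 p.1.2)

lemma eval_phi (M : ℕ) (θ : Par E → ℝ) (f : MvPolynomial (Ix n) ℝ) :
    eval θ (phi E M f) = aeval (fun p : Ix n => eval θ (Sg E M p.1.1 p.1.2)) f := by
  have : ((aeval θ : MvPolynomial (Par E) ℝ →ₐ[ℝ] ℝ).comp (phi E M)) =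
      aeval (fun p : Ix n => eval θ (Sg E M p.1.1 p.1.2)) := by
    apply MvPolynomial.algHom_ext
    intro p
    rw [AlgHom.comp_apply, phi, aeval_X, aeval_X]
    rfl
  rw [← this]
  rfl

lemma mem_vanIdeal (hE : ∀ i j, E i j → rk i < rk j) {M : ℕ} (hM : ∀ v, rk v < M)
    (f : MvPolynomial (Ix n) ℝ) : f ∈ vanIdeal E ↔ phi E M f = 0 := by
  classical
  constructor
  · intro hf
    rw [vanIdeal, mem_vanishingIdeal_iff] at hf
    apply funext_set (Sum.elim (fun _ => Set.Ioi (0 : ℝ)) (fun _ => Set.univ))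
    · rintro (v | e)
      · exact Set.Ioi_infinite 0
      · exact Set.infinite_univ
    · intro θ hθ
      rw [map_zero, eval_phi]
      apply hf
      refine ⟨Matrix.of (fun i j => if h : E i j then θ (Sum.inr ⟨(i, j), h⟩) else 0),
        fun v => θ (Sum.inl v), ?_, ?_, ?_⟩
      · intro i j h
        rw [Matrix.of_apply, dif_neg h]
      · intro v
        exact hθ (Sum.inl v) (Set.mem_univ _)
      · funext p
        symm
        apply cov_eval hE hM θ
        · intro i j h
          rw [Matrix.of_apply, dif_neg h]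
        · rintro ⟨⟨i, j⟩, h⟩
          rw [Matrix.of_apply, dif_pos h]
  · intro hf
    rw [vanIdeal, mem_vanishingIdeal_iff]
    rintro x ⟨L, w, hL, hw, rfl⟩
    set θ : Par E → ℝ := Sum.elim w (fun e => L e.1.1 e.1.2) with hθ
    have h1 := eval_phi M θ f
    rw [hf, map_zero] at h1
    have h2 : (fun p : Ix n => eval θ (Sg E M p.1.1 p.1.2)) =
        fun p : Ix n => cov L w p.1.1 p.1.2 := by
      funext p
      rw [← cov_eval hE hM θ L hL (fun e => rfl)]
      rfl
    rw [h2] at h1
    exact h1.symm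

/-- index of an unordered pair -/
def ixx (i j : Fin n) : Ix n :=
  if h : i ≤ j then ⟨(i, j), h⟩ else ⟨(j, i), (not_le.1 h).le⟩

lemma ixx_inj (i j k l : Fin n) (h : ixx i j = ixx k l) :
    (i = k ∧ j = l) ∨ (i = l ∧ j = k) := by
  unfold ixx at h
  split_ifs at h <;> simp only [Subtype.mk.injEq, Prod.mk.injEq] at h
  · exact Or.inl h
  · exact Or.inr h
  · exact Or.inr ⟨h.2, h.1⟩
  · exact Or.inl ⟨h.2, h.1⟩

lemma phi_ixx (M : ℕ) (i j : Fin n) : phi E M (X (ixx i j)) = Sg E M i j := by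
  unfold ixx phi
  split_ifs with h
  · rw [aeval_X]
  · rw [aeval_X, Sg_symm]

/-! ### The result -/

theorem main (hE : IsDAG E) {i j : Fin n} (hij : i ≠ j) (hsep : ∃ C, DSep E C i j)
    (hmin : ∀ C : Finset (Fin n), DSep E C i j → 2 ≤ C.card)
    (hPB : ∀ M, (∀ f, f ∈ vanIdeal E ↔ phi E M f = 0) → PB (phi E M)) : False := by
  classical
  obtain ⟨rk, hrk, hErk⟩ := exists_rk hE
  obtain ⟨M, hM⟩ : ∃ M, ∀ v, rk v < M :=
    ⟨(∑ v, rk v) + 1, fun v => Nat.lt_succ_of_le
      (Finset.single_le_sum (f := rk) (fun _ _ => Nat.zero_le _) (Finset.mem_univ v))⟩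
  have hPB' := hPB M (mem_vanIdeal hErk hM)
  set S := sysG hErk hM with hS
  have hφ : ∀ i j, phi E M (X (ixx i j)) = S.s i j := fun i j => phi_ixx M i j
  obtain ⟨C, hC⟩ := hsep
  have hloop : ∀ v, ¬ E v v := fun v h => lt_irrefl _ (hErk v v h)
  have hnadj : ∀ a b : Fin n, (a = i ∧ b = j) ∨ (a = j ∧ b = i) → ¬ E a b := by
    intro a b hab hEab
    have hpath : IsPath E i j [i, j] := by
      refine ⟨by simpa using hij, ?_, rfl, rfl⟩
      rw [List.isChain_cons_cons]
      refine ⟨?_, List.isChain_singleton _⟩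
      rcases hab with ⟨rfl, rfl⟩ | ⟨rfl, rfl⟩
      · exact Or.inl hEab
      · exact Or.inr hEab
    obtain ⟨a', c', b', hinf, _⟩ := hC.2.2 _ hpath
    have := hinf.length_le
    simp at this
  have hsmall : ∃ C : Finset (Fin n), DSep E C i j ∧ C.card ≤ 1 := by
    by_cases h0 : S.s i j = 0
    · refine ⟨∅, ⟨by simp, by simp, ?_⟩, by simp⟩
      rintro l ⟨_, hch, hhead, hlast⟩
      obtain ⟨a, c, b, hinf, h1, h2⟩ := cl0 ℝ S hErk hrk h0 hch hhead hlast
      exact ⟨a, c, b, hinf, Or.inr ⟨⟨h1, h2⟩, by simp⟩⟩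
    · have hk : ∃ k, k ≠ i ∧ k ≠ j ∧ S.s i j * S.s k k = S.s i k * S.s j k := by
        rcases lt_or_gt_of_ne (fun h => hij (hrk h)) with hlt | hlt
        · obtain ⟨k, hkj, hki, hrel⟩ := rel3 ℝ S hErk hrk ixx_inj hφ hPB' hlt
            (hnadj i j (Or.inl ⟨rfl, rfl⟩)) h0
          refine ⟨k, hki, fun h => hloop j (h ▸ hkj), ?_⟩
          rw [hrel, S.symm k j]
        · have h0' : S.s j i ≠ 0 := by rw [S.symm]; exact h0
          obtain ⟨k, hki, hkj, hrel⟩ := rel3 ℝ S hErk hrk ixx_inj hφ hPB' hlt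
            (hnadj j i (Or.inr ⟨rfl, rfl⟩)) h0'
          refine ⟨k, fun h => hloop i (h ▸ hki), hkj, ?_⟩
          rw [S.symm i j, hrel, S.symm k i]; ring
      obtain ⟨k, hki, hkj, hrel⟩ := hk
      refine ⟨{k}, ⟨by simpa using hki.symm, by simpa using hkj.symm, ?_⟩, by simp⟩
      rintro l ⟨_, hch, hhead, hlast⟩
      by_contra hnb
      have hact : Act E k l := by
        intro a c b hinf
        refine ⟨fun h1 h2 => hnb ⟨a, c, b, hinf, Or.inl ⟨h1, by simpa using h2⟩⟩, fun h1 => ?_⟩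
        by_contra h2
        exact hnb ⟨a, c, b, hinf, Or.inr ⟨h1, fun d hd => by
          rw [Finset.mem_singleton] at hd
          rw [hd]; exact h2⟩⟩
      exact cl1 ℝ S hErk hrk M i j k l (hM i).le (hM j).le (hM k).le hki.symm hkj.symm hij hch
        hhead hlast hact hrel
  obtain ⟨C', hC', hcard⟩ := hsmall
  have := hmin C' hC'
  omega

/-- **Q1 (yes).** If two distinct vertices `i`, `j` of a DAG are `d`-separated by some set, and
every set that `d`-separates them has at least two elements, then the Gaussian vanishing ideal of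
the DAG is not toric. -/
theorem result (n : ℕ) (E : Fin n → Fin n → Prop) (hE : IsDAG E) (i j : Fin n) (hij : i ≠ j)
    (hsep : ∃ C, DSep E C i j) (hmin : ∀ C, DSep E C i j → 2 ≤ C.card) :
    ¬ IsPrimeBinomial (vanIdeal E) ∧ ¬ IsMonomialKernel (vanIdeal E) := by
  refine ⟨?_, ?_⟩
  · rintro ⟨_, B, hB, hspan⟩
    refine main hE hij hsep hmin (fun M hM => PB_of_binomial hB ?_)
    rw [hspan]
    ext f
    rw [hM f, RingHom.mem_ker]
  · rintro ⟨τ, χ, hχ, hker⟩
    refine main hE hij hsep hmin (fun M hM => PB_of_monomialMap hχ ?_)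
    intro f
    rw [← hM f, ← hker, RingHom.mem_ker]

end Pool.Agent.Results.MP_3a69bf_ag.LargeSeparatorNotToric
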